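import Pool.Agent.H75C.HY.TR

set_option autoImplicit false

/-!
# Evaluation in a cluster of a transitive model (piece C1)
-/

namespace Pool.Agent.Helper4.TR

open Pool.Agent.H75C.HY Pool.Agent.H75C.HY.TR

/-- the states that are visible at `u` -/
def vis (K : Model) (u : K.W) : Set K.W := {v | v = u ∨ K.R u v}

/-- the truth value depends only on the visible values -/
theorem tv_dep {𝔅 : Base} (K : Model) (tr : ∀ u v w, K.R u v → K.R v w → K.R u w) (φ : Form 𝔅) :
    NoAt φ → ∀ (g g' : ℕ → K.W) (u : K.W),
      (∀ x, g x = g' x ∨ (g x ∉ vis K u ∧ g' x ∉ vis K u)) → tv K φ g u = tv K φ g' u := by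
  induction φ with
  | prop i => intro _ g g' u _; rfl
  | nom i => intro _ g g' u _; rfl
  | var x =>
    intro _ g g' u h
    rcases h x with h1 | ⟨h1, h2⟩
    · simp only [tv]
      exact decide_eq_decide.2 (by rw [h1])
    · have e1 : u ≠ g x := fun he => h1 (Or.inl he.symm)
      have e2 : u ≠ g' x := fun he => h2 (Or.inl he.symm)
      simp only [tv, e1, e2]
  | app b φ ih =>
    intro hn g g' u h
    simp only [tv]
    congr 1
    funext i
    exact ih i (hn i) g g' u h
  | dia φ ih =>
    intro hn g g' u h
    have h1 : ∀ v, K.R u v → tv K φ g v = tv K φ g' v := fun v hv => ih hn g g' v fun x => by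
      rcases h x with h1 | ⟨h1, h2⟩
      · exact Or.inl h1
      · refine Or.inr ⟨fun h3 => h1 ?_, fun h3 => h2 ?_⟩
        · rcases h3 with h3 | h3
          · rw [h3]; exact Or.inr hv
          · exact Or.inr (tr _ _ _ hv h3)
        · rcases h3 with h3 | h3
          · rw [h3]; exact Or.inr hv
          · exact Or.inr (tr _ _ _ hv h3)
    simp only [tv]
    rw [decide_eq_decide]
    exact exists_congr fun v => and_congr_right fun hv => by rw [h1 v hv]
  | box φ ih =>
    intro hn g g' u h
    have h1 : ∀ v, K.R u v → tv K φ g v = tv K φ g' v := fun v hv => ih hn g g' v fun x => by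
      rcases h x with h1 | ⟨h1, h2⟩
      · exact Or.inl h1
      · refine Or.inr ⟨fun h3 => h1 ?_, fun h3 => h2 ?_⟩
        · rcases h3 with h3 | h3
          · rw [h3]; exact Or.inr hv
          · exact Or.inr (tr _ _ _ hv h3)
        · rcases h3 with h3 | h3
          · rw [h3]; exact Or.inr hv
          · exact Or.inr (tr _ _ _ hv h3)
    simp only [tv]
    rw [decide_eq_decide]
    exact forall_congr' fun v => forall_congr' fun hv => by rw [h1 v hv]
  | bind x φ ih =>
    intro hn g g' u h
    simp only [tv]
    refine ih hn _ _ u fun y => ?_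
    by_cases hy : y = x
    · subst hy
      left
      rw [Function.update_self, Function.update_self]
    · rw [Function.update_of_ne hy, Function.update_of_ne hy]
      exact h y
  | atNom i φ _ => intro hn; exact absurd hn (by simp [NoAt])
  | atVar x φ _ => intro hn; exact absurd hn (by simp [NoAt])

theorem c1 : C1 := by
  intro 𝔅 K g0 o ht w φ
  -- the values at the states strictly above
  have dead : ∀ (ψ : Form 𝔅), NoAt ψ → ∀ (B : List ℕ) (g : ℕ → K.W),
      (∀ x ∈ B, g x ∈ clu K w ∨ g x = o) → (∀ x, x ∉ B → g x = g0 x) →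
      ∀ u, K.R w u → ¬ K.R u w → tv K ψ g u = tv K ψ (dg g0 o B) u := by
    intro ψ hn B g hB hg u h1 h2
    refine tv_dep K ht.tr ψ hn g _ u fun x => ?_
    have hou : o ∉ vis K u := by
      rintro (h3 | h3)
      · rw [← h3] at h1
        exact (ht.io w).2 h1
      · exact (ht.io u).2 h3
    by_cases hx : x ∈ B
    · right
      refine ⟨?_, ?_⟩
      · rcases hB x hx with h3 | h3
        · rintro (h4 | h4)
          · rcases h3 with h3 | h3
            · rw [← h3, h4] at h2
              rw [← h3, h4] at h1
              exact h2 h1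
            · rw [h4] at h3
              exact h2 h3.2
          · rcases h3 with h3 | h3
            · rw [h3] at h4
              exact h2 h4
            · exact h2 (ht.tr _ _ _ h4 h3.2)
        · rw [h3]
          exact hou
      · have : dg g0 o B x = o := by
          unfold dg
          rw [if_pos hx]
        rw [this]
        exact hou
    · left
      unfold dg
      rw [if_neg hx]
      exact hg x hx
  have eqR : ∀ v ∈ clu K w, ∀ u, K.R v u ↔ K.R w u := by
    rintro v (rfl | ⟨h1, h2⟩) u
    · exact Iff.rfl
    · exact ⟨fun h => ht.tr _ _ _ h1 h, fun h => ht.tr _ _ _ h2 h⟩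
  have above : ∀ u, K.R w u ↔ (K.R w u ∧ ¬ K.R u w) ∨ (K.R w w ∧ u ∈ clu K w) := by
    intro u
    constructor
    · intro h
      by_cases h2 : K.R u w
      · exact Or.inr ⟨ht.tr _ _ _ h h2, Or.inr ⟨h, h2⟩⟩
      · exact Or.inl ⟨h, h2⟩
    · rintro (h | ⟨h, (rfl | h2)⟩)
      · exact h.1
      · exact h
      · exact h2.1
  induction φ with
  | prop i => intro _ B g _ _ v _; rfl
  | nom i => intro _ B g _ _ v _; rfl
  | var x => intro _ B g _ _ v _; rfl
  | app b φ ih =>
    intro hn B g hB hg v hv
    simp only [tv, ce]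
    congr 1
    funext i
    exact ih i (hn i) B g hB hg v hv
  | dia φ ih =>
    intro hn B g hB hg v hv
    simp only [tv, ce]
    rw [decide_eq_decide]
    constructor
    · rintro ⟨u, h1, h2⟩
      rw [eqR v hv, above] at h1
      rcases h1 with ⟨h3, h4⟩ | ⟨h3, h4⟩
      · left
        exact ⟨u, h3, h4, by rw [← dead φ hn B g hB hg u h3 h4]; exact h2⟩
      · right
        exact ⟨h3, u, h4, by rw [← ih hn B g hB hg u h4]; exact h2⟩
    · rintro (⟨u, h3, h4, h5⟩ | ⟨h3, u, h4, h5⟩)
      · exact ⟨u, (eqR v hv u).2 h3, by rw [dead φ hn B g hB hg u h3 h4]; exact h5⟩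
      · exact ⟨u, (eqR v hv u).2 ((above u).2 (Or.inr ⟨h3, h4⟩)), by
          rw [ih hn B g hB hg u h4]; exact h5⟩
  | box φ ih =>
    intro hn B g hB hg v hv
    simp only [tv, ce]
    rw [decide_eq_decide]
    constructor
    · intro h
      refine ⟨?_, fun h3 u h4 => ?_⟩
      · rintro ⟨u, h3, h4, h5⟩
        have h6 := h u ((eqR v hv u).2 h3)
        rw [dead φ hn B g hB hg u h3 h4, h5] at h6
        exact absurd h6 (by simp)
      · rw [← ih hn B g hB hg u h4]
        exact h u ((eqR v hv u).2 ((above u).2 (Or.inr ⟨h3, h4⟩)))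
    · rintro ⟨h, h'⟩ u h1
      rw [eqR v hv, above] at h1
      rcases h1 with ⟨h3, h4⟩ | ⟨h3, h4⟩
      · rw [dead φ hn B g hB hg u h3 h4]
        by_contra h5
        rw [Bool.not_eq_true] at h5
        exact h ⟨u, h3, h4, h5⟩
      · rw [ih hn B g hB hg u h4]
        exact h' h3 u h4
  | bind x φ ih =>
    intro hn B g hB hg v hv
    simp only [tv, ce]
    refine ih hn (x :: B) _ ?_ ?_ v hv
    · intro y hy
      by_cases hyx : y = x
      · subst hyx
        left
        rw [Function.update_self]
        exact hv
      · rw [Function.update_of_ne hyx]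
        exact hB y ((List.mem_cons.1 hy).resolve_left hyx)
    · intro y hy
      rw [List.mem_cons, not_or] at hy
      rw [Function.update_of_ne hy.1]
      exact hg y hy.2
  | atNom i φ _ => intro hn; exact absurd hn (by simp [NoAt])
  | atVar x φ _ => intro hn; exact absurd hn (by simp [NoAt])

end Pool.Agent.Helper4.TR
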